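import Mathlib

namespace Pool.Agent.Results.MP_78fb5d_an.NotConvex

/-- `E ⊕ T = ℤ_M` -/
def Tiles {M : ℕ} (E T : Finset (ZMod M)) : Prop :=
  ∀ x : ZMod M, ∃! p : ZMod M × ZMod M, p.1 ∈ E ∧ p.2 ∈ T ∧ p.1 + p.2 = x

def E : Finset (ZMod 36) := {0, 6, 9, 15}

def ν (y : ZMod 36) : ℕ :=
  if y ∈ ({0, 8, 12, 20, 24, 32} : Finset (ZMod 36)) then 2
  else if y ∈ ({4, 7, 10, 22, 25, 28} : Finset (ZMod 36)) then 1 else 0

lemma conv : ∀ x : ZMod 36, ∑ y : ZMod 36, (if x - y ∈ E then ν y else 0) = 2 := by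
  decide +kernel

lemma xor {T : Finset (ZMod 36)} (hT : Tiles E T) (h0 : ∀ t ∈ T, ν t ≠ 0) (x a b : ZMod 36)
    (hab : a ≠ b) (ha : x - a ∈ E) (hb : x - b ∈ E)
    (h : ∀ t, x - t ∈ E → ν t ≠ 0 → t = a ∨ t = b) : (a ∈ T ↔ b ∉ T) := by
  obtain ⟨p, ⟨h1, h2, h3⟩, hu⟩ := hT x
  refine ⟨fun h4 h5 => hab ?_, fun h4 => ?_⟩
  · have e1 := hu (x - a, a) ⟨ha, h4, by simp⟩
    have e2 := hu (x - b, b) ⟨hb, h5, by simp⟩
    exact congrArg Prod.snd (e1.trans e2.symm)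
  · rcases h p.2 (by rw [← h3]; simpa using h1) (h0 _ h2) with e | e
    · exact e ▸ h2
    · exact absurd (e ▸ h2) h4

theorem result : ∃ (E : Finset (ZMod 36)) (μ : ZMod 36 → ℝ), (∀ y, 0 ≤ μ y) ∧
    (∀ x, ∑ y, (if x - y ∈ E then 1 else 0) * μ y = 1) ∧ μ 0 = 1 ∧ (∃ T, Tiles E T) ∧
    ¬ ∃ (N : ℕ) (T : Fin N → Finset (ZMod 36)) (c : Fin N → ℝ), (∀ k, Tiles E (T k)) ∧
      (∀ k, 0 ≤ c k) ∧ ∑ k, c k = 1 ∧ ∀ y, μ y = ∑ k, c k * (if y ∈ T k then 1 else 0) := by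
  refine ⟨E, fun y => ν y / 2, fun y => by positivity, fun x => ?_, ?_,
    ⟨{0, 4, 8, 12, 16, 20, 24, 28, 32}, ?_⟩, ?_⟩
  · have : ((∑ y : ZMod 36, (if x - y ∈ E then ν y else 0) : ℕ) : ℝ) = 2 := by
      rw [conv x]; rfl
    push_cast at this
    simp only [ite_mul, one_mul, zero_mul]
    rw [← div_self (two_ne_zero (α := ℝ)), ← this, Finset.sum_div, this]
    exact Finset.sum_congr rfl fun y _ => by split_ifs <;> simp
  · show (ν 0 : ℝ) / 2 = 1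
    rw [show ν 0 = 2 by decide +kernel]; norm_num
  · have h1 : ∀ x : ZMod 36, ∃ e ∈ E, x - e ∈ ({0, 4, 8, 12, 16, 20, 24, 28, 32} : Finset (ZMod 36)) ∧
        ∀ e' ∈ E, x - e' ∈ ({0, 4, 8, 12, 16, 20, 24, 28, 32} : Finset (ZMod 36)) → e' = e := by
      decide +kernel
    intro x
    obtain ⟨e, he, h2, h3⟩ := h1 x
    refine ⟨(e, x - e), ⟨he, h2, by simp⟩, ?_⟩
    rintro ⟨a, b⟩ ⟨ha, hb, rfl⟩
    obtain rfl := h3 a ha (by simpa using hb)
    simp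
  · rintro ⟨N, T, c, hT, hc, hs, hμ⟩
    obtain ⟨k, -, hk⟩ := Finset.exists_ne_zero_of_sum_ne_zero (hs.trans_ne one_ne_zero)
    have h0 : ∀ t ∈ T k, ν t ≠ 0 := by
      intro t ht e
      have h1 := hμ t
      have h2 := Finset.single_le_sum (f := fun k => c k * (if t ∈ T k then 1 else 0))
        (fun j _ => mul_nonneg (hc j) (by positivity)) (Finset.mem_univ k)
      simp only [e, Nat.cast_zero, zero_div] at h1
      rw [← h1, if_pos ht, mul_one] at h2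
      exact hk (h2.antisymm (hc k))
    have a1 := xor (hT k) h0 10 4 10 (by decide) (by decide) (by decide) (by decide +kernel)
    have a2 := xor (hT k) h0 25 10 25 (by decide) (by decide) (by decide) (by decide +kernel)
    have a3 := xor (hT k) h0 4 4 25 (by decide) (by decide) (by decide) (by decide +kernel)
    tauto

end Pool.Agent.Results.MP_78fb5d_an.NotConvex
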